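import Pool.Agent.Lib.MP_20855c_co.Mg.G012
import Pool.Agent.Lib.MP_20855c_co.Mg.G006

/-!
# MP_20855c_co: the bound for systems with a small union of intersections
-/

set_option autoImplicit false

namespace Pool.Agent.Lib.MP_20855c_co

open Finset

section

variable {α : Type*} [DecidableEq α]

/-- The sets of size `m` inside `W`, disjoint from `B`, which contain `(A \ B) ∩ W`. -/
def Ext (W A B : Finset α) (m : ℕ) : Finset (Finset α) :=
  (powersetCard m (W \ B)).filter fun C => (A \ B) ∩ W ⊆ C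

lemma mem_Ext {W A B C : Finset α} {m : ℕ} :
    C ∈ Ext W A B m ↔ (C ⊆ W \ B ∧ C.card = m) ∧ (A \ B) ∩ W ⊆ C := by
  rw [Ext, mem_filter, mem_powersetCard]

lemma choose_le_Ext (W A B : Finset α) (m b : ℕ) (hA : A.card = m + 2) (hB : B.card = b)
    (hAB : (A ∩ B).card = 2) (hW : W.card = m + b) (hsub : A ∩ B ⊆ W) :
    ((A \ W).card + (B \ W).card).choose (A \ W).card ≤ (Ext W A B m).card := by
  have hfree : (W \ (A ∪ B)).card = (A \ W).card + (B \ W).card := by
    have h1 : (A ∪ B).card = m + b := by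
      have := card_union_add_card_inter A B
      omega
    have h2 : ((A ∪ B) \ W).card = (A \ W).card + (B \ W).card := by
      rw [union_sdiff_distrib, card_union_of_disjoint]
      rw [Finset.disjoint_left]
      intro u hu hu'
      rw [mem_sdiff] at hu hu'
      exact hu.2 (hsub (mem_inter.2 ⟨hu.1, hu'.1⟩))
    have h3 := card_sdiff_add_card_inter (A ∪ B) W
    have h4 := card_sdiff_add_card_inter W (A ∪ B)
    rw [inter_comm] at h4
    omega
  have hcore : ((A \ B) ∩ W).card + (A \ W).card = m := by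
    have h1 := card_sdiff_add_card_inter A B
    have h2 := card_sdiff_add_card_inter (A \ B) W
    have h3 : (A \ B) \ W = A \ W := by
      ext u
      simp only [mem_sdiff]
      constructor
      · rintro ⟨⟨h1, _⟩, h3⟩
        exact ⟨h1, h3⟩
      · rintro ⟨h1, h3⟩
        exact ⟨⟨h1, fun h => h3 (hsub (mem_inter.2 ⟨h1, h⟩))⟩, h3⟩
    rw [h3] at h2
    omega
  rw [← hfree, ← card_powersetCard]
  apply Finset.card_le_card_of_injOn (fun S => ((A \ B) ∩ W) ∪ S)
  · intro S hS
    rw [Finset.mem_coe, mem_powersetCard] at hS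
    rw [Finset.mem_coe, mem_Ext]
    refine ⟨⟨?_, ?_⟩, subset_union_left⟩
    · intro u hu
      rw [mem_union, mem_inter, mem_sdiff] at hu
      rw [mem_sdiff]
      rcases hu with hu | hu
      · exact ⟨hu.2, hu.1.2⟩
      · have := hS.1 hu
        rw [mem_sdiff, mem_union, not_or] at this
        exact ⟨this.1, this.2.2⟩
    · rw [card_union_of_disjoint, hS.2]
      · exact hcore
      · rw [Finset.disjoint_left]
        intro u hu hu'
        have := hS.1 hu'
        rw [mem_sdiff, mem_union, not_or] at this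
        rw [mem_inter, mem_sdiff] at hu
        exact this.2.1 hu.1.1
  · intro S hS S' hS' h
    rw [Finset.mem_coe, mem_powersetCard] at hS hS'
    simp only at h
    have key : ∀ S₁ S₂ : Finset α, S₁ ⊆ W \ (A ∪ B) →
        ((A \ B) ∩ W) ∪ S₁ = ((A \ B) ∩ W) ∪ S₂ → S₁ ⊆ S₂ := by
      intro S₁ S₂ h1 h2 u hu
      have h3 : u ∈ ((A \ B) ∩ W) ∪ S₂ := h2 ▸ mem_union_right _ hu
      rw [mem_union] at h3
      rcases h3 with h3 | h3
      · rw [mem_inter, mem_sdiff] at h3
        have := h1 hu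
        rw [mem_sdiff, mem_union, not_or] at this
        exact absurd h3.1.1 this.2.1
      · exact h3
    exact Subset.antisymm (key S S' hS.1 h) (key S' S hS'.1 h.symm)

/-- For a fixed ordering the extended members form a skew system. -/
theorem fixed_bound {ι : Type*} [Fintype ι] [DecidableEq ι] [Fintype α] (m b : ℕ)
    (A B : ι → Finset α)
    (hAB : ∀ i, (A i ∩ B i).card = 2)
    (hc : ∀ i j k, i ≠ j → ¬ A i ∩ B j ⊆ A k ∩ B k)
    (W : Finset α) (hW : W.card = m + b) (hsub : ∀ i, A i ∩ B i ⊆ W)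
    (s : α ≃ Fin (Fintype.card α)) :
    (((univ : Finset ι).sigma fun i => Ext W (A i) (B i) m).filter
      fun x => s ∈ K (A x.1 \ W) (B x.1 \ W)).card ≤ T (m + b) m := by
  classical
  set J := ((univ : Finset ι).sigma fun i => Ext W (A i) (B i) m).filter
      fun x => s ∈ K (A x.1 \ W) (B x.1 \ W) with hJ
  have hJm : ∀ p : J, s ∈ K (A p.1.1 \ W) (B p.1.1 \ W) ∧
      (p.1.2 ⊆ W \ B p.1.1 ∧ p.1.2.card = m) ∧ (A p.1.1 \ B p.1.1) ∩ W ⊆ p.1.2 := by
    intro p
    have h := mem_filter.1 p.2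
    rw [mem_sigma, mem_Ext] at h
    exact ⟨h.2, h.1.2⟩
  have hdisj : ∀ p : J, Disjoint (A p.1.1 ∩ B p.1.1) p.1.2 := by
    intro p
    rw [Finset.disjoint_left]
    intro u hu hu'
    have := (hJm p).2.1.1 hu'
    rw [mem_sdiff] at this
    exact this.2 (mem_inter.1 hu).2
  have hsd : ∀ p : J, (p.1.2 ∪ (A p.1.1 ∩ B p.1.1)) \ p.1.2 = A p.1.1 ∩ B p.1.1 := by
    intro p
    rw [union_sdiff_left]
    exact Finset.sdiff_eq_self_iff_disjoint.2 (hdisj p)
  have h := skew_bound (J := J) W m (fun p => p.1.2) (fun p => p.1.2 ∪ (A p.1.1 ∩ B p.1.1))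
    (univ.image fun i => A i ∩ B i) ?_ ?_ ?_ ?_
    (fun p => (A p.1.1 \ W).sup fun u => (s u : ℕ) + 1) ?_
  · rw [Fintype.card_coe, hW] at h
    exact h
  · intro d hd
    rw [mem_image] at hd
    obtain ⟨i, _, rfl⟩ := hd
    exact ⟨hAB i, hsub i⟩
  · intro p
    exact ⟨(hJm p).2.1.2, subset_union_left⟩
  · intro p
    apply union_subset
    · exact (hJm p).2.1.1.trans sdiff_subset
    · exact hsub _
  · intro p
    rw [hsd]
    exact mem_image_of_mem _ (mem_univ _)
  · intro p q hpq hle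
    rintro ⟨h1, h2⟩
    rw [mem_image] at h2
    obtain ⟨k, _, h2⟩ := h2
    by_cases hij : p.1.1 = q.1.1
    · -- the same member
      have hne : p.1.2 ≠ q.1.2 := by
        intro h
        apply hpq
        apply Subtype.ext
        exact Sigma.ext hij (heq_of_eq h)
      have hqp : Disjoint (A p.1.1 ∩ B p.1.1) q.1.2 := by
        rw [hij]
        exact hdisj q
      have hnsub : ¬ p.1.2 ⊆ q.1.2 := by
        intro h
        apply hne
        apply Finset.eq_of_subset_of_card_le h
        rw [(hJm p).2.1.2, (hJm q).2.1.2]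
      rw [Finset.not_subset] at hnsub
      obtain ⟨u, hu, hu'⟩ := hnsub
      have h3 : insert u (A p.1.1 ∩ B p.1.1) ⊆ (p.1.2 ∪ (A p.1.1 ∩ B p.1.1)) \ q.1.2 := by
        intro v hv
        rw [mem_insert] at hv
        rw [mem_sdiff, mem_union]
        rcases hv with rfl | hv
        · exact ⟨Or.inl hu, hu'⟩
        · exact ⟨Or.inr hv, Finset.disjoint_left.1 hqp hv⟩
      have h4 : u ∉ A p.1.1 ∩ B p.1.1 := fun h => Finset.disjoint_left.1 (hdisj p) h hu
      have h5 := card_le_card h3
      rw [card_insert_of_notMem h4, hAB, ← h2, hAB] at h5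
      omega
    · apply hc p.1.1 q.1.1 k hij
      rw [h2]
      intro u hu
      rw [mem_inter] at hu
      by_cases huW : u ∈ W
      · rw [mem_sdiff, mem_union]
        constructor
        · by_cases huB : u ∈ B p.1.1
          · exact Or.inr (mem_inter.2 ⟨hu.1, huB⟩)
          · exact Or.inl ((hJm p).2.2 (mem_inter.2 ⟨mem_sdiff.2 ⟨hu.1, huB⟩, huW⟩))
        · intro h
          have := (hJm q).2.1.1 h
          rw [mem_sdiff] at this
          exact this.2 hu.2
      · exfalso
        have h3 : (s u : ℕ) + 1 ≤ (A p.1.1 \ W).sup fun u => (s u : ℕ) + 1 :=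
          Finset.le_sup (f := fun u => (s u : ℕ) + 1) (mem_sdiff.2 ⟨hu.1, huW⟩)
        have h4 : (A q.1.1 \ W).sup (fun u => (s u : ℕ) + 1) ≤ s u := by
          apply Finset.sup_le
          intro v hv
          have := mem_K.1 (hJm q).1 v hv u (mem_sdiff.2 ⟨hu.2, huW⟩)
          rw [Fin.lt_def] at this
          omega
        omega

/-- The bound on a finite ground set. -/
theorem main_fin {ι : Type*} [Fintype ι] [Fintype α] (m b : ℕ) (A B : ι → Finset α)
    (hA : ∀ i, (A i).card = m + 2) (hB : ∀ i, (B i).card = b) (hAB : ∀ i, (A i ∩ B i).card = 2)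
    (hc : ∀ i j k, i ≠ j → ¬ A i ∩ B j ⊆ A k ∩ B k)
    (W : Finset α) (hW : W.card = m + b) (hsub : ∀ i, A i ∩ B i ⊆ W) :
    Fintype.card ι ≤ T (m + b) m := by
  classical
  set M := (Fintype.card α).factorial with hM
  have hcu : (univ : Finset (α ≃ Fin (Fintype.card α))).card = M := by
    rw [card_univ]
    exact Fintype.card_equiv (Fintype.equivFin α)
  have h1 : Fintype.card ι * M ≤ ∑ i, (Ext W (A i) (B i) m).card * (K (A i \ W) (B i \ W)).card := by
    rw [← card_univ, ← smul_eq_mul, ← Finset.sum_const]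
    apply Finset.sum_le_sum
    intro i _
    refine (factorial_le (A i \ W) (B i \ W) ?_).trans ?_
    · rw [Finset.disjoint_left]
      intro u hu hu'
      rw [mem_sdiff] at hu hu'
      exact hu.2 (hsub i (mem_inter.2 ⟨hu.1, hu'.1⟩))
    · exact Nat.mul_le_mul_right _ (choose_le_Ext W (A i) (B i) m b (hA i) (hB i) (hAB i) hW (hsub i))
  have h2 : ∑ i, (Ext W (A i) (B i) m).card * (K (A i \ W) (B i \ W)).card =
      ∑ s : α ≃ Fin (Fintype.card α),
        (((univ : Finset ι).sigma fun i => Ext W (A i) (B i) m).filter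
          fun x => s ∈ K (A x.1 \ W) (B x.1 \ W)).card := by
    have h3 := Finset.sum_card_bipartiteAbove_eq_sum_card_bipartiteBelow
      (s := (univ : Finset (α ≃ Fin (Fintype.card α))))
      (t := (univ : Finset ι).sigma fun i => Ext W (A i) (B i) m)
      (fun (s : α ≃ Fin (Fintype.card α)) (x : Sigma fun _ : ι => Finset α) =>
        s ∈ K (A x.1 \ W) (B x.1 \ W))
    unfold Finset.bipartiteAbove Finset.bipartiteBelow at h3
    rw [h3, Finset.sum_sigma]
    apply Finset.sum_congr rfl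
    intro i _
    have h4 : (univ.filter fun s => s ∈ K (A i \ W) (B i \ W)) = K (A i \ W) (B i \ W) := by
      ext s
      simp
    simp only [h4, Finset.sum_const, smul_eq_mul]
  have h3 : ∑ s : α ≃ Fin (Fintype.card α),
        (((univ : Finset ι).sigma fun i => Ext W (A i) (B i) m).filter
          fun x => s ∈ K (A x.1 \ W) (B x.1 \ W)).card ≤ M * T (m + b) m := by
    rw [← hcu, ← smul_eq_mul]
    apply Finset.sum_le_card_nsmul
    intro s _
    exact fixed_bound m b A B hAB hc W hW hsub s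
  have h4 : M * Fintype.card ι ≤ M * T (m + b) m := by
    rw [mul_comm]
    exact (h1.trans h2.le).trans h3
  exact Nat.le_of_mul_le_mul_left h4 (Nat.factorial_pos _)

/-- The bound for any ground type. -/
theorem main {ι : Type*} [Fintype ι] (m b : ℕ) (A B : ι → Finset α)
    (hA : ∀ i, (A i).card = m + 2) (hB : ∀ i, (B i).card = b) (hAB : ∀ i, (A i ∩ B i).card = 2)
    (hc : ∀ i j k, i ≠ j → ¬ A i ∩ B j ⊆ A k ∩ B k)
    (hX : ((univ : Finset ι).biUnion fun k => A k ∩ B k).card ≤ m + b) :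
    Fintype.card ι ≤ T (m + b) m := by
  classical
  rcases isEmpty_or_nonempty ι with hι | ⟨⟨i0⟩⟩
  · rw [Fintype.card_eq_zero]
    exact Nat.zero_le _
  set Ω := (univ : Finset ι).biUnion fun k => A k ∪ B k with hΩ
  have hAΩ : ∀ i, ∀ u ∈ A i, u ∈ Ω := fun i u hu =>
    mem_biUnion.2 ⟨i, mem_univ _, mem_union_left _ hu⟩
  have hBΩ : ∀ i, ∀ u ∈ B i, u ∈ Ω := fun i u hu =>
    mem_biUnion.2 ⟨i, mem_univ _, mem_union_right _ hu⟩
  have hXΩ : ((univ : Finset ι).biUnion fun k => A k ∩ B k) ⊆ Ω := by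
    intro u hu
    rw [mem_biUnion] at hu
    obtain ⟨i, _, hu⟩ := hu
    exact hAΩ i u (mem_inter.1 hu).1
  have hΩc : m + b ≤ Ω.card := by
    have h1 : (A i0 ∪ B i0).card = m + b := by
      have := card_union_add_card_inter (A i0) (B i0)
      rw [hA, hB, hAB] at this
      omega
    rw [← h1]
    apply card_le_card
    intro u hu
    exact mem_biUnion.2 ⟨i0, mem_univ _, hu⟩
  obtain ⟨W, hXW, hWΩ, hWc⟩ := exists_subsuperset_card_eq hXΩ hX hΩc
  have hcard : ∀ S : Finset α, (∀ u ∈ S, u ∈ Ω) → (S.subtype (· ∈ Ω)).card = S.card := by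
    intro S hS
    rw [card_subtype, filter_true_of_mem hS]
  have hinter : ∀ S S' : Finset α, S.subtype (· ∈ Ω) ∩ S'.subtype (· ∈ Ω) =
      (S ∩ S').subtype (· ∈ Ω) := by
    intro S S'
    ext u
    simp [mem_subtype]
  have hsubt : ∀ S S' : Finset α, (∀ u ∈ S, u ∈ Ω) →
      (S.subtype (· ∈ Ω) ⊆ S'.subtype (· ∈ Ω) ↔ S ⊆ S') := by
    intro S S' hS
    constructor
    · intro h u hu
      have := h (mem_subtype.2 hu : (⟨u, hS u hu⟩ : Ω) ∈ S.subtype (· ∈ Ω))
      rwa [mem_subtype] at this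
    · intro h u hu
      rw [mem_subtype] at hu ⊢
      exact h hu
  apply main_fin (α := Ω) m b (fun i => (A i).subtype (· ∈ Ω)) (fun i => (B i).subtype (· ∈ Ω))
    (W := W.subtype (· ∈ Ω))
  · intro i
    rw [hcard _ (hAΩ i), hA]
  · intro i
    rw [hcard _ (hBΩ i), hB]
  · intro i
    rw [hinter, hcard _ (fun u hu => hAΩ i u (mem_inter.1 hu).1), hAB]
  · intro i j k hij h
    rw [hinter, hinter, hsubt _ _ (fun u hu => hAΩ i u (mem_inter.1 hu).1)] at h
    exact hc i j k hij h
  · rw [hcard _ (fun u hu => hWΩ hu), hWc]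
  · intro i
    rw [hinter, hsubt _ _ (fun u hu => hAΩ i u (mem_inter.1 hu).1)]
    intro u hu
    exact hXW (mem_biUnion.2 ⟨i, mem_univ _, hu⟩)

end

end Pool.Agent.Lib.MP_20855c_co
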